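import Mathlib

namespace Pool.Agent.Results.MP_2f389f_nt.Closure

open Finset

/-- the Toda primes of `n` -/
def Toda (n : ℕ) : Set ℕ :=
  {p | p.Prime ∧ p ≠ 2 ∧ p - 1 ∣ 4 * n ∧ Nat.Coprime p (4 * n / (p - 1))}

/-- the primes generated from `m` when the Toda primes of `m` other than `p` are forbidden -/
inductive Gen (m p : ℕ) : ℕ → Prop
  | mk (r d : ℕ) : r.Prime → r ≠ 2 → ¬ r ∣ m → (r ∈ Toda m → r = p) → Squarefree d →
      r - 1 ∣ 4 * m * d → (∀ s, s.Prime → s ∣ d → Gen m p s) → Gen m p r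

theorem mem_toda {n p : ℕ} : p ∈ Toda n ↔ p.Prime ∧ p ≠ 2 ∧ p - 1 ∣ 4 * n ∧ ¬ p ∣ n := by
  refine and_congr_right fun hp => and_congr_right fun h2 => and_congr_right fun hd => ?_
  have h1 := hp.two_le
  obtain ⟨k, hk⟩ := hd
  have c : ¬ p ∣ p - 1 := fun h => by have := Nat.le_of_dvd (by omega) h; omega
  have c4 : ¬ p ∣ 4 := fun h =>
    h2 ((Nat.prime_dvd_prime_iff_eq hp Nat.prime_two).1 (hp.dvd_of_dvd_pow (n := 2) h))
  rw [hk, Nat.mul_div_cancel_left _ (by omega), hp.coprime_iff_not_dvd, not_iff_not]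
  constructor
  · intro h
    exact ((hp.dvd_mul.1 (hk ▸ h.mul_left _ : p ∣ 4 * n)).resolve_left c4)
  · intro h
    exact (hp.dvd_mul.1 (hk ▸ h.mul_left 4 : p ∣ (p - 1) * k)).resolve_left c

theorem toda_fin {n : ℕ} (h : 0 < n) : (Toda n).Finite :=
  (Set.finite_le_nat (4 * n + 1)).subset fun p hp => by
    have := Nat.le_of_dvd (by omega) hp.2.2.1
    simp only [Set.mem_ofPred_eq]
    omega

theorem Gen.basic {m p r : ℕ} (h : Gen m p r) : r.Prime ∧ r ≠ 2 ∧ ¬ r ∣ m := by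
  cases h with
  | mk _ _ a b c => exact ⟨a, b, c⟩

/-- a squarefree number whose prime factors divide `n` and not `m` -/
theorem mul_dvd {m n d : ℕ} (hm : m ∣ n) (hd : Squarefree d)
    (h : ∀ s, s.Prime → s ∣ d → s ∣ n ∧ ¬ s ∣ m) : m * d ∣ n := by
  refine Nat.Coprime.mul_dvd_of_dvd_of_dvd ?_ hm ?_
  · exact Nat.coprime_of_dvd fun s hs h1 h2 => (h s hs h2).2 h1
  · rw [← Nat.prod_primeFactors_of_squarefree hd]
    exact prod_primes_dvd _ (fun s hs => (Nat.prime_of_mem_primeFactors hs).prime) fun s hs =>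
      (h s (Nat.prime_of_mem_primeFactors hs) (Nat.dvd_of_mem_primeFactors hs)).1

theorem Gen.toda {m p n r : ℕ} (hm : m ∣ n) (h : Gen m p r) :
    ¬ r ∣ n → ∃ s, Gen m p s ∧ s ∈ Toda n := by
  induction h with
  | mk r d a b c e f g k ih =>
    intro hr
    by_cases q : ∀ s, s.Prime → s ∣ d → s ∣ n
    · refine ⟨r, .mk r d a b c e f g k, mem_toda.2 ⟨a, b, g.trans ?_, hr⟩⟩
      rw [mul_assoc]
      exact Nat.mul_dvd_mul_left 4 (mul_dvd hm f fun s hs h => ⟨q s hs h, (k s hs h).basic.2.2⟩)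
    · push Not at q
      obtain ⟨s, h1, h2, h3⟩ := q
      exact ih s h1 h2 h3

theorem Gen.disj {m p p' : ℕ} (r : ℕ) : Gen m p r → Gen m p' r → p = p' := by
  induction r using Nat.strong_induction_on with
  | _ r ih =>
    rintro ⟨_, d, a, b, c, e, f, g, k⟩ ⟨_, d', -, -, -, e', -, g', k'⟩
    have h1 := a.two_le
    by_cases q : ∃ s, s.Prime ∧ s ∣ d ∧ s ∣ d' ∧ s ∣ r - 1
    · obtain ⟨s, s1, s2, s3, s4⟩ := q
      have := Nat.le_of_dvd (by omega) s4
      exact ih s (by omega) (k s s1 s2) (k' s s1 s3)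
    · have h2 : r - 1 ∣ 4 * m * Nat.gcd d d' := by
        rw [← Nat.gcd_mul_left]
        exact Nat.dvd_gcd g g'
      have h3 : Nat.Coprime (r - 1) (Nat.gcd d d') := Nat.coprime_of_dvd fun s hs x y =>
        q ⟨s, hs, y.trans (Nat.gcd_dvd_left _ _), y.trans (Nat.gcd_dvd_right _ _), x⟩
      have h4 := mem_toda.2 ⟨a, b, h3.dvd_of_dvd_mul_right h2, c⟩
      exact (e h4).symm.trans (e' h4)

theorem result (m : ℕ) (hm : 0 < m) :
    (∀ n, 0 < n → m ∣ n → (Toda m).ncard ≤ (Toda n).ncard) ↔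
      ∀ p ∈ Toda m, {r | Gen m p r}.Infinite := by
  constructor
  · intro h p hp hf
    have pr : ∀ s ∈ hf.toFinset, s.Prime := fun s hs => (hf.mem_toFinset.1 hs).basic.1
    have d0 : 0 < ∏ s ∈ hf.toFinset, s := prod_pos fun s hs => (pr s hs).pos
    have sq : Squarefree (∏ s ∈ hf.toFinset, s) := by
      refine Finset.squarefree_prod_of_pairwise_isCoprime (fun s hs t ht e => ?_)
        fun s hs => (pr s hs).prime.squarefree
      exact Nat.coprime_iff_isRelPrime.1 ((Nat.coprime_primes (pr s hs) (pr t ht)).2 e)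
    have sub : Toda (m * ∏ s ∈ hf.toFinset, s) ⊆ Toda m \ {p} := fun r hr => by
      obtain ⟨a, b, c, e⟩ := mem_toda.1 hr
      by_contra q
      refine e (Dvd.dvd.mul_left (dvd_prod_of_mem _ (hf.mem_toFinset.2
        (.mk r _ a b (fun x => e (x.mul_right _)) (fun x => by_contra fun y => q ⟨x, y⟩) sq
          (mul_assoc 4 m _ ▸ c) fun s hs x => ?_))) m)
      obtain ⟨t, ht, y⟩ := (hs.prime.dvd_finsetProd_iff _).1 x
      exact (Nat.prime_dvd_prime_iff_eq hs (pr t ht)).1 y ▸ hf.mem_toFinset.1 ht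
    have h1 := h _ (mul_pos hm d0) (dvd_mul_right _ _)
    have h2 := Set.ncard_le_ncard sub (toda_fin hm).sdiff
    have h3 := Set.ncard_sdiff_singleton_lt_of_mem hp (toda_fin hm)
    omega
  · intro h n hn hd
    have : ∀ p ∈ Toda m, ∃ s, Gen m p s ∧ s ∈ Toda n := fun p hp => by
      obtain ⟨r, h1, h2⟩ := (h p hp).exists_gt n
      exact Gen.toda hd h1 (Nat.not_dvd_of_pos_of_lt hn h2)
    choose! f f1 f2 using this
    exact Set.ncard_le_ncard_of_injOn f f2
      (fun p hp q hq e => Gen.disj _ (f1 p hp) (e ▸ f1 q hq)) (toda_fin hn)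

end Pool.Agent.Results.MP_2f389f_nt.Closure
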